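import Pool.Agent.helper94.PL.Spec

/-!
# Module UON of project pl2
-/

set_option autoImplicit false

open Complex Metric Set Filter Topology MeasureTheory MPS
open Pool.Agent.helper16.Multibrot

noncomputable section

namespace PLY

theorem UON : UON_stmt := by
  intro Λ u hΛ hu hfe
  obtain ⟨T₀, hT₀⟩ := hfe
  have hcont : Continuous (fun z : ℂ => ∑ i ∈ Finset.range Λ, z ^ i) :=
    continuous_finsetSum _ (fun i _ => continuous_pow i)
  have h1 : Tendsto (fun t : ℝ => ‖∑ i ∈ Finset.range Λ, u t ^ i‖) atTop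
      (𝓝 ‖∑ i ∈ Finset.range Λ, (1 : ℂ) ^ i‖) :=
    ((hcont.tendsto (1 : ℂ)).comp hu).norm
  have h2 : ‖∑ i ∈ Finset.range Λ, (1 : ℂ) ^ i‖ = (Λ : ℝ) := by
    simp
  rw [h2] at h1
  have hΛ2 : (2 : ℝ) ≤ (Λ : ℝ) := by exact_mod_cast hΛ
  have h3 : ∀ᶠ t : ℝ in atTop, (3 / 2 : ℝ) < ‖∑ i ∈ Finset.range Λ, u t ^ i‖ :=
    h1.eventually (lt_mem_nhds (by linarith))
  have h4 : ∀ᶠ t : ℝ in atTop, ‖u t - 1‖ < 1 := by
    have h5 : Tendsto (fun t : ℝ => ‖u t - 1‖) atTop (𝓝 ‖(1 : ℂ) - 1‖) := (hu.sub_const 1).norm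
    rw [sub_self, norm_zero] at h5
    exact h5.eventually (gt_mem_nhds one_pos)
  obtain ⟨T₁, hT₁⟩ := Filter.eventually_atTop.1 (h3.and h4)
  refine ⟨max (max T₀ T₁) 1, lt_of_lt_of_le one_pos (le_max_right _ _), ?_⟩
  have key : ∀ j : ℕ, ∀ t : ℝ, max (max T₀ T₁) 1 ≤ t → (3 / 2 : ℝ) ^ j * ‖u t - 1‖ ≤ 1 := by
    intro j
    induction j with
    | zero =>
      intro t ht
      have := (hT₁ t (le_trans (le_trans (le_max_right _ _) (le_max_left _ _)) ht)).2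
      rw [pow_zero, one_mul]
      exact this.le
    | succ j ih =>
      intro t ht
      have ht0 : T₀ ≤ t := le_trans (le_trans (le_max_left _ _) (le_max_left _ _)) ht
      have ht1 : T₁ ≤ t := le_trans (le_trans (le_max_right _ _) (le_max_left _ _)) ht
      have ht2 : (1 : ℝ) ≤ t := le_trans (le_max_right _ _) ht
      have ht3 : max (max T₀ T₁) 1 ≤ (Λ : ℝ) * t := by nlinarith
      have h6 := ih _ ht3
      have h7 : u t ^ Λ - 1 = (∑ i ∈ Finset.range Λ, u t ^ i) * (u t - 1) :=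
        (geom_sum_mul (u t) Λ).symm
      rw [hT₀ t ht0, h7, norm_mul] at h6
      have h8 := (hT₁ t ht1).1
      have h9 : (3 / 2 : ℝ) * ‖u t - 1‖ ≤ ‖∑ i ∈ Finset.range Λ, u t ^ i‖ * ‖u t - 1‖ :=
        mul_le_mul_of_nonneg_right h8.le (norm_nonneg _)
      calc (3 / 2 : ℝ) ^ (j + 1) * ‖u t - 1‖ = (3 / 2 : ℝ) ^ j * ((3 / 2 : ℝ) * ‖u t - 1‖) := by ring
        _ ≤ (3 / 2 : ℝ) ^ j * (‖∑ i ∈ Finset.range Λ, u t ^ i‖ * ‖u t - 1‖) :=
          mul_le_mul_of_nonneg_left h9 (by positivity)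
        _ ≤ 1 := h6
  intro t ht
  by_contra hne
  have hpos : 0 < ‖u t - 1‖ := norm_pos_iff.2 (sub_ne_zero.2 hne)
  obtain ⟨j, hj⟩ := pow_unbounded_of_one_lt (1 / ‖u t - 1‖) (show (1 : ℝ) < 3 / 2 by norm_num)
  have h10 := key j t ht
  rw [div_lt_iff₀ hpos] at hj
  linarith

end PLY
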